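import Pool.Agent.R93.EGZ2

set_option autoImplicit false

/-!
The modified Erdos-Ginzburg-Ziv constant of `(ℤ/nℤ)^d` for `n = 2^k`: the conjecture of Berger and
Wang holds for all `d ≥ 1`.
-/

namespace Pool.Agent.Results.MP_4c442e_co.TwoPowers

open Pool.Agent.R93.EGZ

/-- The modified Erdos-Ginzburg-Ziv constant `s'_t(G)`: the least integer `L` such that every
zero-sum sequence (multiset) over `G` of length at least `L` has a zero-sum subsequence
(sub-multiset) of length exactly `t`. -/
noncomputable def modifiedEGZ (t : ℕ) (G : Type) [AddCommGroup G] : ℕ :=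
  sInf {L : ℕ | ∀ S : Multiset G, S.sum = 0 → L ≤ Multiset.card S →
    ∃ T ≤ S, Multiset.card T = t ∧ T.sum = 0}

lemma egz_eq {t : ℕ} {G : Type} [AddCommGroup G] (v : ℕ)
    (hup : ∀ S : Multiset G, S.sum = 0 → v ≤ Multiset.card S →
      ∃ T ≤ S, Multiset.card T = t ∧ T.sum = 0)
    (hlow : ∃ S : Multiset G, S.sum = 0 ∧ v ≤ Multiset.card S + 1 ∧
      ¬ ∃ T ≤ S, Multiset.card T = t ∧ T.sum = 0) : modifiedEGZ t G = v := by
  unfold modifiedEGZ
  apply le_antisymm
  · exact Nat.sInf_le hup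
  · refine le_csInf ⟨v, fun S h0 h1 => hup S h0 h1⟩ ?_
    intro L hL
    obtain ⟨S, h0, h1, h2⟩ := hlow
    by_contra hlt
    push Not at hlt
    exact h2 (hL S h0 (by omega))

/-- **The conjecture of Berger and Wang.** For `n = 2^k`, `d ≥ 1`, and `l` the least integer with
`l ≥ 2^d` and `l ∤ n`, the modified Erdos-Ginzburg-Ziv constant is
`s'_n((ℤ/nℤ)^d) = 2^d n - l + 1`. -/
theorem result (k d : ℕ) (hd : 1 ≤ d) (l : ℕ)
    (hl : IsLeast {m : ℕ | 2 ^ d ≤ m ∧ ¬ m ∣ 2 ^ k} l) :
    (modifiedEGZ (2 ^ k) (Fin d → ZMod (2 ^ k)) : ℤ) = 2 ^ d * 2 ^ k - l + 1 := by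
  have hone := Nat.one_le_two_pow (n := k)
  obtain ⟨N, hN⟩ : ∃ N, 2 ^ k = N + 1 := ⟨2 ^ k - 1, by omega⟩
  rcases Nat.lt_or_ge k d with hkd | hkd
  · -- `k < d`
    have h1 : IsLeast {m : ℕ | 2 ^ d ≤ m ∧ ¬ m ∣ 2 ^ k} (2 ^ d) := by
      refine ⟨⟨le_rfl, fun h => ?_⟩, fun m hm => hm.1⟩
      have h2 := (Nat.pow_dvd_pow_iff_le_right (by norm_num : 1 < 2)).mp h
      omega
    have hl' : l = 2 ^ d := hl.unique h1
    subst hl'
    have hval : modifiedEGZ (2 ^ k) (Fin d → ZMod (2 ^ k)) = 2 ^ d * (2 ^ k - 1) + 1 := by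
      apply egz_eq
      · intro S _ hS
        exact upper_harborth S hS
      · rcases Nat.eq_zero_or_pos k with hk | hk
        · subst hk
          refine ⟨0, rfl, by simp, ?_⟩
          rintro ⟨T, hT, hc, _⟩
          have : T = 0 := by simpa using hT
          rw [this] at hc
          simp at hc
        · refine ⟨E k d, ?_, by rw [card_E], ?_⟩
          · funext i
            rw [sum_E]
            have h2 : ((2 ^ (d - 1) : ℕ) : ZMod (2 ^ k)) = 0 := by
              rw [ZMod.natCast_eq_zero_iff]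
              exact pow_dvd_pow 2 (by omega)
            push_cast at h2
            rw [h2, mul_zero]
            rfl
          · rintro ⟨T, hT, hc, h0⟩
            exact no_zero_E hk T hT hc h0
    rw [hval]
    push_cast [Nat.one_le_two_pow (n := k)]
    ring
  · -- `d ≤ k`
    have hk : 1 ≤ k := hd.trans hkd
    have h1 : IsLeast {m : ℕ | 2 ^ d ≤ m ∧ ¬ m ∣ 2 ^ k} (2 ^ d + 1) := by
      refine ⟨⟨Nat.le_succ _, fun h => ?_⟩, fun m hm => ?_⟩
      · obtain ⟨j, _, hj⟩ := (Nat.dvd_prime_pow Nat.prime_two).mp h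
        have h2 : 2 ≤ 2 ^ d := by
          calc 2 = 2 ^ 1 := by norm_num
            _ ≤ 2 ^ d := Nat.pow_le_pow_right (by norm_num) hd
        have hj0 : j ≠ 0 := by
          rintro rfl
          rw [pow_zero] at hj
          omega
        have h3 : 2 ∣ 2 ^ j := dvd_pow_self 2 hj0
        have h4 : 2 ∣ 2 ^ d := dvd_pow_self 2 (by omega)
        omega
      · obtain ⟨h2, h3⟩ := hm
        rcases Nat.lt_or_ge (2 ^ d) m with h4 | h4
        · exact h4
        · exfalso
          apply h3
          rw [le_antisymm h4 h2]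
          exact pow_dvd_pow 2 hkd
    have hl' : l = 2 ^ d + 1 := hl.unique h1
    subst hl'
    have hN1 : 1 ≤ 2 ^ k - 1 := by
      have : 2 ≤ 2 ^ k := by
        calc 2 = 2 ^ 1 := by norm_num
          _ ≤ 2 ^ k := Nat.pow_le_pow_right (by norm_num) hk
      omega
    have hpos : 1 ≤ 2 ^ d * (2 ^ k - 1) :=
      Nat.mul_pos (by positivity) hN1
    have hval : modifiedEGZ (2 ^ k) (Fin d → ZMod (2 ^ k)) = 2 ^ d * (2 ^ k - 1) := by
      apply egz_eq
      · intro S h0 hS
        exact upper_zero hd hkd S hS h0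
      · -- remove one zero and translate
        have hmem : (0 : Fin d → ZMod (2 ^ k)) ∈ E k d := by
          unfold E
          have h2 : (0 : Fin d → ZMod (2 ^ k)) ∈ Finset.univ.val.map (cube : (Fin d → Bool) → Gk k d) := by
            rw [Multiset.mem_map]
            exact ⟨fun _ => false, Finset.mem_univ _, by funext i; simp [cube]⟩
          exact (Multiset.mem_nsmul_of_ne_zero (by omega)).mpr h2
        have hcard : Multiset.card ((E k d).erase 0) = 2 ^ d * (2 ^ k - 1) - 1 := by
          rw [Multiset.card_erase_of_mem hmem, card_E]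
          rfl
        obtain ⟨M, hM⟩ : ∃ M, 2 ^ d * (2 ^ k - 1) - 1 = M := ⟨_, rfl⟩
        have hodd : Nat.Coprime M (2 ^ k) := by
          apply Nat.Coprime.pow_right
          rw [Nat.coprime_two_right, Nat.odd_iff, ← hM]
          have h5 : 2 ∣ 2 ^ d * (2 ^ k - 1) := Dvd.dvd.mul_right (dvd_pow_self 2 (by omega)) _
          omega
        let u := ZMod.unitOfCoprime M hodd
        have hu : ((u : (ZMod (2 ^ k))ˣ) : ZMod (2 ^ k)) = (M : ZMod (2 ^ k)) :=
          ZMod.coe_unitOfCoprime M hodd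
        let c : Fin d → ZMod (2 ^ k) := fun i => -(((u⁻¹ : (ZMod (2 ^ k))ˣ) : ZMod (2 ^ k)) *
          ((E k d).erase 0).sum i)
        refine ⟨((E k d).erase 0).map (fun x => x + c), ?_, ?_, ?_⟩
        · rw [Multiset.sum_map_add]
          simp only [Multiset.map_id', Multiset.map_const', Multiset.sum_replicate, hcard, hM]
          funext i
          rw [Pi.add_apply, Pi.smul_apply, nsmul_eq_mul]
          change _ + (M : ZMod (2 ^ k)) * -(((u⁻¹ : (ZMod (2 ^ k))ˣ) : ZMod (2 ^ k)) *
            ((E k d).erase 0).sum i) = 0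
          rw [← hu, mul_neg, ← mul_assoc, Units.mul_inv, one_mul, add_neg_cancel]
        · rw [Multiset.card_map, hcard]
          omega
        · rintro ⟨T, hT, hc, h0⟩
          exact no_zero_translate hk c _ (Multiset.erase_le _ _) T hT hc h0
    rw [hval]
    push_cast [Nat.one_le_two_pow (n := k)]
    ring

end Pool.Agent.Results.MP_4c442e_co.TwoPowers
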